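import Pool.Agent.V7H41.CC.Spec4

set_option autoImplicit false

/-!
# A sequence close to the binomial coefficients is nonincreasing in the upper half
-/

open Finset

namespace Pool.Agent.V7H87.CC

open Pool.Agent.V7H41.CC

theorem t_STEP97 : S_STEP97 := by
  intro C
  refine ⟨max 12 ⌈48 * |C|⌉₊, fun n hn a ha hb k hk hkn hm => ?_⟩
  obtain ⟨m, hmdef⟩ : ∃ m, m = n - (k + 1) := ⟨_, rfl⟩
  rw [← hmdef] at hm
  have h12 : 12 ≤ n := (le_max_left _ _).trans hn
  have hC : 48 * |C| ≤ n := (Nat.le_ceil _).trans (by exact_mod_cast (le_max_right _ _).trans hn)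
  have hm1 : 1 ≤ m := by omega
  have hmn : m < n := by omega
  have hm2 : 2 * m + 4 ≤ n := by omega
  have e1 : k + 1 = n - m := by omega
  have e2 : k = n - (m + 1) := by omega
  have h1 := hb m hm hmn
  have h2 := ha (m + 1) (by omega) (by omega)
  rw [← e1] at h1
  rw [← e2] at h2
  refine h1.trans (le_trans ?_ h2)
  have h3 : (n.choose (m + 1 + 1) : ℝ) * ((m : ℝ) + 2) = (n.choose (m + 1) : ℝ) * ((n : ℝ) - m - 1) := by
    have h4 := Nat.choose_succ_right_eq n (m + 1)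
    have h5 : ((n.choose (m + 1 + 1) * (m + 1 + 1) : ℕ) : ℝ) = ((n.choose (m + 1) * (n - (m + 1)) : ℕ) : ℝ) := by
      rw [h4]
    push_cast [Nat.cast_sub (show m + 1 ≤ n by omega)] at h5
    rw [show (m : ℝ) + 2 = m + 1 + 1 by ring, show (n : ℝ) - m - 1 = n - (m + 1) by ring]
    exact h5
  have hmr : (1 : ℝ) ≤ m := by exact_mod_cast hm1
  have hnr : (12 : ℝ) ≤ n := by exact_mod_cast h12
  have hm2r : 2 * (m : ℝ) + 4 ≤ n := by exact_mod_cast hm2
  have hmr2 : 97 ^ 2 * (n : ℝ) ≤ (100 * m) ^ 2 := by exact_mod_cast hm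
  -- the main inequality
  have key : 3 * |C| * n ≤ (n - 2 * m - 3) * (m : ℝ) ^ 2 := by
    by_cases h : 4 * (m : ℝ) ≤ n
    · have a1 : (n : ℝ) / 4 ≤ n - 2 * m - 3 := by linarith
      have a2 : (n : ℝ) / 2 ≤ (m : ℝ) ^ 2 := by nlinarith
      calc 3 * |C| * n ≤ ((n : ℝ) / 4) * (n / 2) := by nlinarith [abs_nonneg C]
        _ ≤ (n - 2 * m - 3) * (m : ℝ) ^ 2 := mul_le_mul a1 a2 (by positivity) (by linarith)
    · push Not at h
      have a1 : (1 : ℝ) ≤ n - 2 * m - 3 := by linarith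
      have a2 : (n : ℝ) / 4 * (n / 4) ≤ (m : ℝ) ^ 2 := by
        rw [pow_two]
        exact mul_le_mul (by linarith) (by linarith) (by positivity) (by positivity)
      calc 3 * |C| * n ≤ 1 * ((n : ℝ) / 4 * (n / 4)) := by nlinarith [abs_nonneg C]
        _ ≤ (n - 2 * m - 3) * (m : ℝ) ^ 2 := mul_le_mul a1 a2 (by positivity) (by linarith)
  have key2 : C * n * (m + 2) ≤ (n - 2 * m - 3) * (m : ℝ) ^ 3 := by
    calc C * n * (m + 2) ≤ |C| * n * (3 * m) :=
          mul_le_mul (mul_le_mul_of_nonneg_right (le_abs_self C) (by positivity)) (by linarith) (by positivity)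
            (by positivity)
      _ = (3 * |C| * n) * m := by ring
      _ ≤ ((n - 2 * m - 3) * (m : ℝ) ^ 2) * m := mul_le_mul_of_nonneg_right key (by positivity)
      _ = (n - 2 * m - 3) * (m : ℝ) ^ 3 := by ring
  have hm3 : (0 : ℝ) < (m : ℝ) ^ 3 := by positivity
  have key3 : C * (n : ℝ) / (m : ℝ) ^ 3 * (m + 2) ≤ n - 2 * m - 3 := by
    rw [div_mul_eq_mul_div, div_le_iff₀ hm3]
    exact key2
  have key4 : (1 + C * (n : ℝ) / (m : ℝ) ^ 3) * (m + 2) ≤ n - m - 1 := by linarith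
  have hm22 : (0 : ℝ) < m + 2 := by positivity
  have h6 : (n.choose (m + 1) : ℝ) * (1 + C * (n : ℝ) / (m : ℝ) ^ 3) * (m + 2) ≤
      (n.choose (m + 1 + 1) : ℝ) * ((m : ℝ) + 2) := by
    rw [h3, mul_assoc]
    exact mul_le_mul_of_nonneg_left key4 (Nat.cast_nonneg _)
  exact le_of_mul_le_mul_right h6 hm22

end Pool.Agent.V7H87.CC
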